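import Pool.Agent.R612.SU.Stm

/-!
# PIECE DU of `MP_ae4adf_co`: the big region is a disk
-/

open MeasureTheory Set Filter Topology

namespace Pool.Agent.R906.SU

open Pool.Agent.R612.SU

/-! ### the profile -/

theorem q_zero_of {t : ℝ} (h : 1 / 2 ≤ |t|) : q t = 0 := by
  unfold q
  rw [max_eq_left (by linarith)]
  norm_num

theorem q_nonneg (t : ℝ) : 0 ≤ q t := by
  unfold q
  positivity

theorem q_le_one (t : ℝ) : q t ≤ 1 := by
  unfold q
  have h1 : 0 ≤ max 0 (1 - 2 * |t|) := le_max_left _ _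
  have h2 : max 0 (1 - 2 * |t|) ≤ 1 := max_le (by norm_num) (by linarith [abs_nonneg t])
  nlinarith

theorem q_cont : Continuous q := by
  unfold q
  fun_prop

theorem prof_eq (f : ℤ → ℝ) {y : ℝ} {s : ℤ} (h : |y - s| ≤ 1 / 2) :
    prof f y = f s * q (y - s) := by
  unfold prof
  by_cases hs : round y = s
  · rw [hs]
  · have h1 : |y - round y| ≤ |y - s| := round_le y s
    have h2 : 1 ≤ |((round y : ℤ) : ℝ) - s| := by
      have h3 : 1 ≤ |round y - s| := Int.one_le_abs (sub_ne_zero.2 hs)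
      have h4 : ((1 : ℤ) : ℝ) ≤ ((|round y - s| : ℤ) : ℝ) := by exact_mod_cast h3
      simpa using h4
    have h5 : |((round y : ℤ) : ℝ) - s| ≤ |y - round y| + |y - s| := by
      have : ((round y : ℤ) : ℝ) - s = -(y - round y) + (y - s) := by ring
      rw [this]
      exact (abs_add_le _ _).trans (by rw [abs_neg])
    rw [q_zero_of (by linarith), q_zero_of (by linarith)]
    ring

theorem prof_cont (f : ℤ → ℝ) : Continuous (prof f) := by
  have hlf : LocallyFinite (fun s : ℤ => {y : ℝ | |y - s| ≤ 1 / 2}) := by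
    intro x
    refine ⟨Metric.ball x 1, Metric.ball_mem_nhds x one_pos, ?_⟩
    refine (Set.finite_Icc (⌊x⌋ - 2) (⌊x⌋ + 3)).subset ?_
    rintro s ⟨y, hy1, hy2⟩
    have h1 : |y - s| ≤ 1 / 2 := hy1
    have h2 : |y - x| < 1 := by simpa [Real.dist_eq] using hy2
    have h3 := Int.floor_le x
    have h4 := Int.lt_floor_add_one x
    rw [abs_le] at h1
    rw [abs_lt] at h2
    constructor
    · have : ((⌊x⌋ - 2 : ℤ) : ℝ) ≤ s := by push_cast; linarith
      exact_mod_cast this
    · have : (s : ℝ) ≤ ((⌊x⌋ + 3 : ℤ) : ℝ) := by push_cast; linarith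
      exact_mod_cast this
  refine hlf.continuous ?_ ?_ ?_
  · ext y
    simp only [mem_iUnion, mem_univ, iff_true]
    exact ⟨round y, abs_sub_round y⟩
  · intro s
    exact isClosed_le (by fun_prop) continuous_const
  · intro s
    have h1 : Continuous fun y : ℝ => f s * q (y - s) := by
      have := q_cont
      fun_prop
    refine h1.continuousOn.congr ?_
    intro y hy
    exact prof_eq f hy

theorem prof_le (f : ℤ → ℝ) {C : ℝ} (hf : ∀ s, |f s| ≤ C) (y : ℝ) : |prof f y| ≤ C := by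
  unfold prof
  rw [abs_mul, abs_of_nonneg (q_nonneg _)]
  have h1 := hf (round y)
  have h2 := q_nonneg (y - round y)
  have h3 := q_le_one (y - round y)
  have h4 := abs_nonneg (f (round y))
  nlinarith

/-! ### rectangles are disks -/

theorem isDisk_rect {M N : ℝ} (hM : 0 < M) (hN : 0 < N) :
    IsDisk {z : ℂ | |z.re| ≤ M ∧ |z.im| ≤ N} := by
  set s : Set ℂ := {z : ℂ | |z.re| ≤ M ∧ |z.im| ≤ N} with hs
  have hcl : IsClosed s := by
    apply IsClosed.inter
    · exact isClosed_le (continuous_abs.comp Complex.continuous_re) continuous_const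
    · exact isClosed_le (continuous_abs.comp Complex.continuous_im) continuous_const
  have hconv : Convex ℝ s := by
    intro z hz w hw a b ha hb hab
    have h1 := abs_le.1 hz.1
    have h2 := abs_le.1 hz.2
    have h3 := abs_le.1 hw.1
    have h4 := abs_le.1 hw.2
    constructor
    · simp only [Complex.add_re, Complex.real_smul, Complex.mul_re, Complex.ofReal_re,
        Complex.ofReal_im, zero_mul, sub_zero]
      rw [abs_le]
      constructor <;> nlinarith
    · simp only [Complex.add_im, Complex.real_smul, Complex.mul_im, Complex.ofReal_re,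
        Complex.ofReal_im, zero_mul, add_zero]
      rw [abs_le]
      constructor <;> nlinarith
  have hne : (interior s).Nonempty := by
    refine ⟨0, mem_interior.2 ⟨{z : ℂ | |z.re| < M ∧ |z.im| < N}, ?_, ?_, ?_⟩⟩
    · intro z hz
      exact ⟨hz.1.le, hz.2.le⟩
    · apply IsOpen.inter
      · exact isOpen_lt (continuous_abs.comp Complex.continuous_re) continuous_const
      · exact isOpen_lt (continuous_abs.comp Complex.continuous_im) continuous_const
    · simp [hM, hN]
  have hb : Bornology.IsBounded s := by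
    refine (Metric.isBounded_closedBall (x := (0 : ℂ)) (r := M + N)).subset ?_
    intro z hz
    rw [mem_closedBall_zero_iff]
    calc ‖z‖ ≤ |z.re| + |z.im| := Complex.norm_le_abs_re_add_abs_im z
      _ ≤ M + N := add_le_add hz.1 hz.2
  obtain ⟨e, -, he, -⟩ := exists_homeomorph_image_interior_closure_frontier_eq_unitBall hconv hne hb
  rw [hcl.closure_eq] at he
  exact ⟨(e.image s).trans (Homeomorph.setCongr he)⟩

theorem isDisk_image {D : Set ℂ} (hD : IsDisk D) (hc : IsCompact D) {f : ℂ → ℂ}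
    (hf : ContinuousOn f D) (hinj : Set.InjOn f D) : IsDisk (f '' D) := by
  obtain ⟨e⟩ := hD
  have : CompactSpace D := isCompact_iff_compactSpace.1 hc
  let g : D ≃ f '' D := Equiv.Set.imageOfInjOn f D hinj
  have hg : Continuous g := by
    apply Continuous.subtype_mk
    exact continuousOn_iff_continuous_domRestrict.1 hf
  exact ⟨(hg.homeoOfEquivCompactToT2).symm.trans e⟩

/-! ### distance to the even integers, and the triangle wave -/

/-- distance to the nearest even integer -/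
noncomputable def DD (x : ℝ) : ℝ := 2 * |x / 2 - round (x / 2)|

theorem DD_le (x : ℝ) (n : ℤ) : DD x ≤ |x - 2 * n| := by
  unfold DD
  have h := round_le (x / 2) n
  have h2 : |x - 2 * n| = 2 * |x / 2 - n| := by
    have : x - 2 * n = 2 * (x / 2 - n) := by ring
    rw [this, abs_mul, abs_of_pos (by norm_num : (0 : ℝ) < 2)]
  rw [h2]
  linarith

theorem DD_exists (x : ℝ) : ∃ n : ℤ, DD x = |x - 2 * n| := by
  refine ⟨round (x / 2), ?_⟩
  unfold DD
  have : x - 2 * (round (x / 2) : ℤ) = 2 * (x / 2 - round (x / 2)) := by ring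
  rw [this, abs_mul, abs_of_pos (by norm_num : (0 : ℝ) < 2)]

theorem DD_eq {x : ℝ} {n : ℤ} (h : |x - 2 * n| ≤ 1) : DD x = |x - 2 * n| := by
  apply le_antisymm (DD_le x n)
  obtain ⟨m, hm⟩ := DD_exists x
  rw [hm]
  by_cases hmn : m = n
  · rw [hmn]
  · have h3 : 1 ≤ |m - n| := Int.one_le_abs (sub_ne_zero.2 hmn)
    have h4 : (1 : ℝ) ≤ |(m : ℝ) - n| := by
      have h5 : ((1 : ℤ) : ℝ) ≤ ((|m - n| : ℤ) : ℝ) := by exact_mod_cast h3
      simpa using h5
    have h6 : 2 * |(m : ℝ) - n| ≤ |x - 2 * m| + |x - 2 * n| := by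
      have h7 : |2 * ((m : ℝ) - n)| ≤ |x - 2 * m| + |x - 2 * n| := by
        have : 2 * ((m : ℝ) - n) = -(x - 2 * m) + (x - 2 * n) := by ring
        rw [this]
        exact (abs_add_le _ _).trans (by rw [abs_neg])
      rwa [abs_mul, abs_of_pos (by norm_num : (0 : ℝ) < 2)] at h7
    linarith

theorem DD_lip (x y : ℝ) : DD x ≤ DD y + |x - y| := by
  obtain ⟨m, hm⟩ := DD_exists y
  rw [hm]
  refine (DD_le x m).trans ?_
  have : x - 2 * m = (y - 2 * m) + (x - y) := by ring
  rw [this]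
  exact abs_add_le _ _

theorem DD_abs (x y : ℝ) : |DD x - DD y| ≤ |x - y| := by
  rw [abs_le]
  have h1 := DD_lip x y
  have h2 := DD_lip y x
  rw [abs_sub_comm y x] at h2
  constructor <;> linarith

theorem DD_cont : Continuous DD := by
  have : LipschitzWith 1 DD := LipschitzWith.of_dist_le_mul fun x y => by
    rw [Real.dist_eq, Real.dist_eq, NNReal.coe_one, one_mul]
    exact DD_abs x y
  exact this.continuous

/-- the triangle wave -/
noncomputable def ze (x : ℝ) : ℝ := 1 / 2 - DD (x - 1 / 2)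

theorem ze_cont : Continuous ze := by
  unfold ze
  have := DD_cont
  fun_prop

theorem ze_even {x : ℝ} {n : ℤ} (h : |x - 2 * n| ≤ 1 / 2) : ze x = x - 2 * n := by
  rw [abs_le] at h
  unfold ze
  have h1 : |x - 1 / 2 - 2 * n| = 1 / 2 - (x - 2 * n) := by
    rw [abs_of_nonpos (by linarith)]
    ring
  rw [DD_eq (n := n) (by rw [h1]; linarith), h1]
  ring

theorem ze_abs (x y : ℝ) : |ze x - ze y| ≤ |x - y| := by
  unfold ze
  have h := DD_abs (y - 1 / 2) (x - 1 / 2)
  have h1 : 1 / 2 - DD (x - 1 / 2) - (1 / 2 - DD (y - 1 / 2)) =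
      DD (y - 1 / 2) - DD (x - 1 / 2) := by ring
  rw [h1]
  refine h.trans ?_
  rw [abs_sub_comm]
  ring_nf
  exact le_rfl

/-- the part of `x` outside `[-m, m]` -/
noncomputable def ta (m x : ℝ) : ℝ := x - max (-m) (min m x)

theorem ta_cont (m : ℝ) : Continuous (ta m) := by
  unfold ta
  fun_prop

theorem ta_zero {m x : ℝ} (h : |x| ≤ m) : ta m x = 0 := by
  rw [abs_le] at h
  unfold ta
  rw [min_eq_right h.2, max_eq_right h.1]
  ring

theorem ta_abs {m x y : ℝ} (h : x ≤ y) : |ta m y - ta m x| ≤ y - x := by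
  unfold ta
  have h1 : max (-m) (min m x) ≤ max (-m) (min m y) :=
    max_le_max le_rfl (min_le_min le_rfl h)
  have h2 : max (-m) (min m y) ≤ max (-m) (min m x) + (y - x) := by
    apply max_le
    · linarith [le_max_left (-m) (min m x)]
    · have h3 := le_max_right (-m) (min m x)
      rcases min_choice m x with h4 | h4
      · rw [h4] at h3 ⊢
        linarith [min_le_left m y]
      · rw [h4] at h3 ⊢
        linarith [min_le_right m y]
  rw [abs_le]
  constructor <;> linarith

/-- the straightening of the walls -/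
noncomputable def XX (w a b m x : ℝ) : ℝ := 2 * w * x + 2 * b * ze x + (a + b) * ta m x

theorem XX_mono {w a b m C : ℝ} (ha : |a| ≤ C) (hb : |b| ≤ C) (hC : 4 * C < 2 * w) {x y : ℝ}
    (h : x < y) : XX w a b m x < XX w a b m y := by
  unfold XX
  have h1 := ze_abs y x
  have h2 := ta_abs (m := m) h.le
  rw [abs_of_pos (by linarith : (0 : ℝ) < y - x)] at h1
  have h3 : |2 * b * (ze y - ze x)| ≤ 2 * C * (y - x) := by
    rw [abs_mul, abs_mul, abs_of_pos (by norm_num : (0 : ℝ) < 2)]
    have := abs_nonneg b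
    have := abs_nonneg (ze y - ze x)
    nlinarith
  have h4 : |(a + b) * (ta m y - ta m x)| ≤ 2 * C * (y - x) := by
    rw [abs_mul]
    have h5 : |a + b| ≤ 2 * C := (abs_add_le a b).trans (by linarith)
    have := abs_nonneg (a + b)
    have := abs_nonneg (ta m y - ta m x)
    nlinarith
  rw [abs_le] at h3 h4
  have h5 : 4 * C * (y - x) < 2 * w * (y - x) := mul_lt_mul_of_pos_right hC (by linarith)
  nlinarith [h3.1, h4.1]

theorem XX_lt_iff {w a b m C : ℝ} (ha : |a| ≤ C) (hb : |b| ≤ C) (hC : 4 * C < 2 * w) :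
    StrictMono (XX w a b m) := fun _ _ h => XX_mono ha hb hC h

/-- the height of the domain -/
noncomputable def hh (H1 H2 x : ℝ) : ℝ := H1 + (H2 - H1) * max 0 (min 1 (2 - 4 * DD x))

/-- the height above the main rectangle -/
noncomputable def tt (H1 H2 y : ℝ) : ℝ := max 0 (min 1 ((|y| - H1) / (H2 - H1)))

theorem tt_nonneg (H1 H2 y : ℝ) : 0 ≤ tt H1 H2 y := le_max_left _ _

theorem tt_le_one (H1 H2 y : ℝ) : tt H1 H2 y ≤ 1 := max_le (by norm_num) (min_le_left _ _)

theorem tt_zero {H1 H2 y : ℝ} (h12 : H1 < H2) (h : |y| ≤ H1) : tt H1 H2 y = 0 := by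
  unfold tt
  apply max_eq_left
  refine (min_le_right _ _).trans ?_
  exact div_nonpos_of_nonpos_of_nonneg (by linarith) (by linarith)

theorem tt_eq {H1 H2 y : ℝ} (h12 : H1 < H2) (h : H1 ≤ |y|) (h' : |y| ≤ H2) :
    tt H1 H2 y = (|y| - H1) / (H2 - H1) := by
  unfold tt
  rw [min_eq_right, max_eq_right]
  · exact div_nonneg (by linarith) (by linarith)
  · rw [div_le_one (by linarith)]
    linarith

theorem hh_pos {H1 H2 x : ℝ} (h1 : 0 < H1) (h12 : H1 < H2) : 0 < hh H1 H2 x := by
  unfold hh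
  have : 0 ≤ max 0 (min 1 (2 - 4 * DD x)) := le_max_left _ _
  have := mul_nonneg (sub_nonneg.2 h12.le) this
  linarith

theorem hh_ge {H1 H2 x : ℝ} (h12 : H1 < H2) : H1 ≤ hh H1 H2 x := by
  unfold hh
  have : 0 ≤ max 0 (min 1 (2 - 4 * DD x)) := le_max_left _ _
  have := mul_nonneg (sub_nonneg.2 h12.le) this
  linarith

theorem hh_le {H1 H2 x : ℝ} (h12 : H1 < H2) : hh H1 H2 x ≤ H2 := by
  unfold hh
  have : max 0 (min 1 (2 - 4 * DD x)) ≤ 1 := max_le (by norm_num) (min_le_left _ _)
  nlinarith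

/-- Above the main rectangle, the domain consists of trapezoids. -/
theorem hh_key {H1 H2 x y : ℝ} (h12 : H1 < H2) (hy : H1 < |y|) (h : |y| ≤ hh H1 H2 x) :
    ∃ n : ℤ, |x - 2 * n| ≤ 1 / 2 - tt H1 H2 y / 4 := by
  obtain ⟨n, hn⟩ := DD_exists x
  refine ⟨n, ?_⟩
  have hy2 : |y| ≤ H2 := h.trans (hh_le h12)
  rw [tt_eq h12 hy.le hy2]
  rw [← hn]
  have h3 : (|y| - H1) / (H2 - H1) ≤ max 0 (min 1 (2 - 4 * DD x)) := by
    rw [div_le_iff₀ (by linarith)]
    unfold hh at h
    linarith
  have h4 : 0 < (|y| - H1) / (H2 - H1) := div_pos (by linarith) (by linarith)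
  have h5 : max 0 (min 1 (2 - 4 * DD x)) ≤ 2 - 4 * DD x := by
    rcases le_or_gt (min 1 (2 - 4 * DD x)) 0 with h6 | h6
    · rw [max_eq_left h6] at h3
      linarith
    · rw [max_eq_right h6.le]
      exact min_le_right _ _
  linarith

theorem hh_key' {H1 H2 x y : ℝ} (h12 : H1 < H2) (hy : H1 ≤ |y|) (hy2 : |y| ≤ H2) {n : ℤ}
    (h : |x - 2 * n| ≤ 1 / 2 - tt H1 H2 y / 4) : |y| ≤ hh H1 H2 x := by
  have ht := tt_nonneg H1 H2 y
  have ht1 := tt_le_one H1 H2 y
  have h1 : DD x = |x - 2 * n| := DD_eq (by linarith)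
  have h2 : tt H1 H2 y ≤ max 0 (min 1 (2 - 4 * DD x)) := by
    rw [h1]
    exact le_max_of_le_right (le_min ht1 (by linarith))
  rw [tt_eq h12 hy hy2, div_le_iff₀ (by linarith)] at h2
  unfold hh
  linarith

theorem ze_M (I : ℕ) : ze (2 * I + 3 / 2) = -1 / 2 := by
  unfold ze
  have h : |(2 * (I : ℝ) + 3 / 2 - 1 / 2) - 2 * ((I : ℤ) : ℝ)| = 1 := by
    push_cast
    rw [show 2 * (I : ℝ) + 3 / 2 - 1 / 2 - 2 * (I : ℝ) = 1 by ring, abs_one]
  rw [DD_eq (n := (I : ℤ)) h.le, h]
  norm_num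

theorem ze_negM (I : ℕ) : ze (-(2 * I + 3 / 2)) = 1 / 2 := by
  unfold ze
  have h : |(-(2 * (I : ℝ) + 3 / 2) - 1 / 2) - 2 * ((-(I : ℤ) - 1 : ℤ) : ℝ)| = 0 := by
    push_cast
    rw [show -(2 * (I : ℝ) + 3 / 2) - 1 / 2 - 2 * (-(I : ℝ) - 1) = 0 by ring, abs_zero]
  rw [DD_eq (n := (-(I : ℤ) - 1 : ℤ)) (by rw [h]; norm_num), h]
  norm_num

theorem ta_M (I : ℕ) : ta (2 * I + 1 / 2) (2 * I + 3 / 2) = 1 := by
  unfold ta
  rw [min_eq_left (by linarith), max_eq_right (by
    have : (0 : ℝ) ≤ I := Nat.cast_nonneg I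
    linarith)]
  ring

theorem ta_negM (I : ℕ) : ta (2 * I + 1 / 2) (-(2 * I + 3 / 2)) = -1 := by
  unfold ta
  have : (0 : ℝ) ≤ I := Nat.cast_nonneg I
  rw [min_eq_right (by linarith), max_eq_left (by linarith)]
  ring

/-- the stretched coordinate -/
noncomputable def st (H1 H2 x y : ℝ) : ℝ := x + ze x * (tt H1 H2 y / (2 - tt H1 H2 y))

theorem st_key {H1 H2 x y : ℝ} {n : ℤ} (h : |x - 2 * n| ≤ 1 / 2 - tt H1 H2 y / 4) :
    st H1 H2 x y - 2 * n = (x - 2 * n) * (2 / (2 - tt H1 H2 y)) ∧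
      |st H1 H2 x y - 2 * n| ≤ 1 / 2 := by
  have ht := tt_nonneg H1 H2 y
  have ht1 := tt_le_one H1 H2 y
  have h2 : (0 : ℝ) < 2 - tt H1 H2 y := by linarith
  have h1 : st H1 H2 x y - 2 * n = (x - 2 * n) * (2 / (2 - tt H1 H2 y)) := by
    unfold st
    rw [ze_even (n := n) (by linarith)]
    field_simp
    ring
  refine ⟨h1, ?_⟩
  rw [h1, abs_mul, abs_of_pos (div_pos two_pos h2)]
  calc |x - 2 * n| * (2 / (2 - tt H1 H2 y)) ≤
      (1 / 2 - tt H1 H2 y / 4) * (2 / (2 - tt H1 H2 y)) :=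
        mul_le_mul_of_nonneg_right h (div_pos two_pos h2).le
    _ = 1 / 2 := by
      field_simp
      ring

theorem XX_tab {w a b x : ℝ} {n : ℤ} {I : ℕ} (hn : |n| ≤ (I : ℤ)) (h : |x - 2 * n| ≤ 1 / 2) :
    XX w a b (2 * I + 1 / 2) x = 2 * w * x + 2 * b * (x - 2 * n) := by
  unfold XX
  rw [ze_even h, ta_zero]
  · ring
  · have h1 : |(n : ℝ)| ≤ I := by exact_mod_cast hn
    rw [abs_le] at h h1 ⊢
    constructor <;> linarith

/-- the parametrization -/
noncomputable def Ps (w H1 H2 : ℝ) (α β : ℝ → ℝ) (I : ℕ) (z : ℂ) : ℂ :=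
  ((XX w (α (z.im * hh H1 H2 z.re)) (β (z.im * hh H1 H2 z.re)) (2 * I + 1 / 2)
    (st H1 H2 z.re (z.im * hh H1 H2 z.re)) : ℝ) : ℂ) +
    ((z.im * hh H1 H2 z.re : ℝ) : ℂ) * Complex.I

theorem Ps_re (w H1 H2 : ℝ) (α β : ℝ → ℝ) (I : ℕ) (z : ℂ) : (Ps w H1 H2 α β I z).re =
    XX w (α (z.im * hh H1 H2 z.re)) (β (z.im * hh H1 H2 z.re)) (2 * I + 1 / 2)
    (st H1 H2 z.re (z.im * hh H1 H2 z.re)) := by
  simp [Ps, -Complex.ofReal_mul]

theorem Ps_im (w H1 H2 : ℝ) (α β : ℝ → ℝ) (I : ℕ) (z : ℂ) : (Ps w H1 H2 α β I z).im =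
    z.im * hh H1 H2 z.re := by
  simp [Ps, -Complex.ofReal_mul]

theorem Ps_cont (w H1 H2 : ℝ) {α β : ℝ → ℝ} (hα : Continuous α) (hβ : Continuous β) (I : ℕ) :
    Continuous (Ps w H1 H2 α β I) := by
  have h1 : Continuous (hh H1 H2) := by
    unfold hh
    have := DD_cont
    fun_prop
  have h2 : Continuous (tt H1 H2) := by
    unfold tt
    fun_prop
  have hy : Continuous fun z : ℂ => z.im * hh H1 H2 z.re :=
    Complex.continuous_im.mul (h1.comp Complex.continuous_re)
  have h3 : Continuous fun z : ℂ => st H1 H2 z.re (z.im * hh H1 H2 z.re) := by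
    unfold st
    refine Complex.continuous_re.add ((ze_cont.comp Complex.continuous_re).mul ?_)
    refine Continuous.div (h2.comp hy) (continuous_const.sub (h2.comp hy)) ?_
    intro z
    have := tt_le_one H1 H2 (z.im * hh H1 H2 z.re)
    change 2 - tt H1 H2 (z.im * hh H1 H2 z.re) ≠ 0
    linarith
  unfold Ps XX
  have h4 : Continuous fun z : ℂ => 2 * w * st H1 H2 z.re (z.im * hh H1 H2 z.re) +
      2 * β (z.im * hh H1 H2 z.re) * ze (st H1 H2 z.re (z.im * hh H1 H2 z.re)) +
      (α (z.im * hh H1 H2 z.re) + β (z.im * hh H1 H2 z.re)) *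
        ta (2 * I + 1 / 2) (st H1 H2 z.re (z.im * hh H1 H2 z.re)) := by
    refine ((continuous_const.mul h3).add ((continuous_const.mul (hβ.comp hy)).mul
      (ze_cont.comp h3))).add (((hα.comp hy).add (hβ.comp hy)).mul ((ta_cont _).comp h3))
  exact (Complex.continuous_ofReal.comp h4).add
    ((Complex.continuous_ofReal.comp hy).mul continuous_const)

theorem n_bound {x : ℝ} {n : ℤ} {I : ℕ} {t : ℝ} (ht : 0 < t) (hx : |x| ≤ 2 * I + 3 / 2)
    (h : |x - 2 * n| ≤ 1 / 2 - t / 4) : |n| ≤ (I : ℤ) := by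
  rw [abs_le] at hx h
  rw [abs_le]
  constructor
  · by_contra hc
    rw [not_le] at hc
    have h1 : n + 1 ≤ -(I : ℤ) := hc
    have h2 : ((n : ℝ)) + 1 ≤ -(I : ℝ) := by exact_mod_cast h1
    linarith [hx.1, h.2]
  · by_contra hc
    rw [not_le] at hc
    have h1 : (I : ℤ) + 1 ≤ n := hc
    have h2 : (I : ℝ) + 1 ≤ (n : ℝ) := by exact_mod_cast h1
    linarith [hx.2, h.1]

theorem region_disk (w C H1 H2 : ℝ) (α β : ℝ → ℝ) (hα : Continuous α) (hβ : Continuous β)
    (hαC : ∀ y, |α y| ≤ C) (hβC : ∀ y, |β y| ≤ C) (hC : 4 * C < 2 * w) (h1 : 0 < H1)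
    (h12 : H1 < H2) (I : ℕ) :
    IsDisk ({z : ℂ | |z.im| ≤ H1 ∧ |z.re| ≤ w * (4 * I + 3) + α z.im} ∪
      {z : ℂ | |z.im| ≤ H2 ∧ ∃ i : ℤ, |i| ≤ 2 * I ∧ Even i ∧
        |z.re - 2 * w * i| ≤ w + β z.im}) := by
  have hI : (0 : ℝ) ≤ I := Nat.cast_nonneg I
  have hC0 : 0 ≤ C := (abs_nonneg _).trans (hαC 0)
  have hM : (0 : ℝ) < 2 * I + 3 / 2 := by linarith
  set D : Set ℂ := {z : ℂ | |z.re| ≤ 2 * I + 3 / 2 ∧ |z.im| ≤ 1} with hD
  have hDd : IsDisk D := isDisk_rect hM one_pos
  have hDc : IsCompact D := by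
    obtain ⟨e⟩ := hDd
    have h2 : CompactSpace (Metric.closedBall (0 : ℂ) 1) :=
      isCompact_iff_compactSpace.1 (isCompact_closedBall 0 1)
    have h3 : CompactSpace D := e.symm.compactSpace
    exact isCompact_iff_compactSpace.2 h3
  have hsm : ∀ y, StrictMono (XX w (α y) (β y) (2 * I + 1 / 2)) := fun y =>
    XX_lt_iff (hαC y) (hβC y) hC
  have hXM : ∀ a b, XX w a b (2 * I + 1 / 2) (2 * I + 3 / 2) = w * (4 * I + 3) + a := by
    intro a b
    unfold XX
    rw [ze_M, ta_M]
    ring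
  have hXN : ∀ a b, XX w a b (2 * I + 1 / 2) (-(2 * I + 3 / 2)) = -(w * (4 * I + 3) + a) := by
    intro a b
    unfold XX
    rw [ze_negM, ta_negM]
    ring
  have hXc : ∀ a b, Continuous (XX w a b (2 * I + 1 / 2)) := by
    intro a b
    unfold XX
    have := ze_cont
    have := ta_cont (2 * I + 1 / 2)
    fun_prop
  have himg : Ps w H1 H2 α β I '' D = {z : ℂ | |z.im| ≤ H1 ∧ |z.re| ≤ w * (4 * I + 3) + α z.im} ∪
      {z : ℂ | |z.im| ≤ H2 ∧ ∃ i : ℤ, |i| ≤ 2 * I ∧ Even i ∧
        |z.re - 2 * w * i| ≤ w + β z.im} := by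
    ext z
    constructor
    · rintro ⟨p, ⟨hp1, hp2⟩, rfl⟩
      have hy : |p.im * hh H1 H2 p.re| ≤ hh H1 H2 p.re := by
        rw [abs_mul, abs_of_pos (hh_pos h1 h12)]
        nlinarith [hh_pos (x := p.re) h1 h12]
      set y := p.im * hh H1 H2 p.re with hydef
      rcases le_or_gt |y| H1 with hc | hc
      · left
        refine ⟨by rw [Ps_im]; exact hc, ?_⟩
        rw [Ps_re, Ps_im]
        have hst : st H1 H2 p.re y = p.re := by
          unfold st
          rw [tt_zero h12 hc]
          simp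
        rw [← hydef, hst]
        rw [abs_le] at hp1 ⊢
        rw [← hXN (α y) (β y), ← hXM (α y) (β y)]
        exact ⟨(hsm y).monotone hp1.1, (hsm y).monotone hp1.2⟩
      · right
        obtain ⟨n, hn⟩ := hh_key h12 hc hy
        have hy2 : |y| ≤ H2 := hy.trans (hh_le h12)
        have ht : 0 < tt H1 H2 y := by
          rw [tt_eq h12 hc.le hy2]
          exact div_pos (by linarith) (by linarith)
        have hnI := n_bound ht hp1 hn
        obtain ⟨-, hk⟩ := st_key hn
        refine ⟨by rw [Ps_im]; exact hy2, 2 * n, ?_, even_two_mul n, ?_⟩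
        · rw [abs_mul]
          have : |(2 : ℤ)| = 2 := rfl
          rw [this]
          linarith
        · rw [Ps_re, Ps_im, ← hydef, XX_tab hnI hk]
          have e1 : 2 * w * st H1 H2 p.re y + 2 * β y * (st H1 H2 p.re y - 2 * n) -
              2 * w * ((2 * n : ℤ) : ℝ) = (2 * (w + β y)) * (st H1 H2 p.re y - 2 * n) := by
            push_cast
            ring
          have hb := abs_le.1 (hβC y)
          have hpos : 0 < w + β y := by linarith [hb.1]
          rw [e1, abs_mul, abs_of_pos (by linarith : 0 < 2 * (w + β y))]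
          nlinarith
    · have hA : ∀ z : ℂ, |z.im| ≤ H1 → |z.re| ≤ w * (4 * I + 3) + α z.im →
          z ∈ Ps w H1 H2 α β I '' D := by
        intro z hz1 hz2
        have hiv := intermediate_value_Icc (by linarith : -(2 * (I : ℝ) + 3 / 2) ≤ 2 * I + 3 / 2)
          (hXc (α z.im) (β z.im)).continuousOn
        rw [hXN, hXM] at hiv
        obtain ⟨x, hx, hxz⟩ := hiv (abs_le.1 hz2)
        have hhp := hh_pos (x := x) h1 h12
        have hge := hh_ge (x := x) h12
        refine ⟨⟨x, z.im / hh H1 H2 x⟩, ⟨abs_le.2 hx, ?_⟩, ?_⟩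
        · change |z.im / hh H1 H2 x| ≤ 1
          rw [abs_div, abs_of_pos hhp, div_le_one hhp]
          linarith
        · have e1 : z.im / hh H1 H2 x * hh H1 H2 x = z.im := div_mul_cancel₀ _ hhp.ne'
          apply Complex.ext
          · rw [Ps_re]
            change XX w (α (z.im / hh H1 H2 x * hh H1 H2 x)) (β (z.im / hh H1 H2 x * hh H1 H2 x)) _
              (st H1 H2 x (z.im / hh H1 H2 x * hh H1 H2 x)) = _
            rw [e1]
            have hst : st H1 H2 x z.im = x := by
              unfold st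
              rw [tt_zero h12 hz1]
              simp
            rw [hst, hxz]
          · rw [Ps_im]
            exact e1
      rintro (⟨hz1, hz2⟩ | ⟨hz1, i, hi, ⟨n, rfl⟩, hz2⟩)
      · exact hA z hz1 hz2
      · have hnI : |n| ≤ (I : ℤ) := by
          rw [← two_mul, abs_mul] at hi
          have : |(2 : ℤ)| = 2 := rfl
          rw [this] at hi
          linarith
        have hnI' : |(n : ℝ)| ≤ I := by exact_mod_cast hnI
        have ha := abs_le.1 (hαC z.im)
        have hb := abs_le.1 (hβC z.im)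
        have hpos : 0 < w + β z.im := by linarith [hb.1]
        push_cast at hz2
        have hn2 := abs_le.1 hnI'
        rcases le_or_gt |z.im| H1 with hc | hc
        · apply hA z hc
          have h3 := abs_le.1 hz2
          have h4 : 2 * w * (n + n) ≤ 4 * w * I := by nlinarith [hn2.2]
          have h5 : -(4 * w * I) ≤ 2 * w * (n + n) := by nlinarith [hn2.1]
          rw [abs_le]
          constructor
          · linarith [h3.1, hb.1, hb.2, ha.1, ha.2]
          · linarith [h3.2, hb.1, hb.2, ha.1, ha.2]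
        · set t := tt H1 H2 z.im with htdef
          have ht0 : 0 ≤ t := tt_nonneg _ _ _
          have ht1 : t ≤ 1 := tt_le_one _ _ _
          set x1 : ℝ := (z.re - 2 * w * (n + n)) / (2 * (w + β z.im)) with hx1
          have hx1a : |x1| ≤ 1 / 2 := by
            rw [hx1, abs_div, abs_of_pos (by linarith : 0 < 2 * (w + β z.im)),
              div_le_iff₀ (by linarith)]
            linarith
          set x : ℝ := 2 * n + x1 * ((2 - t) / 2) with hx
          have hxn : |x - 2 * n| ≤ 1 / 2 - t / 4 := by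
            have : x - 2 * n = x1 * ((2 - t) / 2) := by rw [hx]; ring
            rw [this, abs_mul, abs_of_pos (by linarith : 0 < (2 - t) / 2)]
            nlinarith
          obtain ⟨hk1, hk2⟩ := st_key hxn
          have hst : st H1 H2 x z.im - 2 * n = x1 := by
            rw [hk1, ← htdef, hx]
            have : (2 : ℝ) - t ≠ 0 := by linarith
            field_simp
            ring
          have hhp := hh_pos (x := x) h1 h12
          have hhy : |z.im| ≤ hh H1 H2 x := hh_key' h12 hc.le hz1 hxn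
          refine ⟨⟨x, z.im / hh H1 H2 x⟩, ⟨?_, ?_⟩, ?_⟩
          · change |x| ≤ 2 * I + 3 / 2
            rw [abs_le] at hxn ⊢
            constructor
            · linarith [hxn.1, hn2.1]
            · linarith [hxn.2, hn2.2]
          · change |z.im / hh H1 H2 x| ≤ 1
            rw [abs_div, abs_of_pos hhp, div_le_one hhp]
            exact hhy
          · have e1 : z.im / hh H1 H2 x * hh H1 H2 x = z.im := div_mul_cancel₀ _ hhp.ne'
            apply Complex.ext
            · rw [Ps_re]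
              change XX w (α (z.im / hh H1 H2 x * hh H1 H2 x))
                (β (z.im / hh H1 H2 x * hh H1 H2 x)) _
                (st H1 H2 x (z.im / hh H1 H2 x * hh H1 H2 x)) = _
              rw [e1, XX_tab hnI hk2]
              have e2 : 2 * w * st H1 H2 x z.im + 2 * β z.im * (st H1 H2 x z.im - 2 * n) =
                  2 * w * (n + n) + 2 * (w + β z.im) * (st H1 H2 x z.im - 2 * n) := by ring
              rw [e2, hst, hx1]
              field_simp
              ring
            · rw [Ps_im]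
              exact e1
  rw [← himg]
  apply isDisk_image hDd hDc (Ps_cont w H1 H2 hα hβ I).continuousOn
  intro p hp p' hp' hpp
  have him := congrArg Complex.im hpp
  have hre := congrArg Complex.re hpp
  rw [Ps_im, Ps_im] at him
  rw [Ps_re, Ps_re, ← him] at hre
  have hy : |p.im * hh H1 H2 p.re| ≤ hh H1 H2 p.re := by
    rw [abs_mul, abs_of_pos (hh_pos h1 h12)]
    nlinarith [hh_pos (x := p.re) h1 h12, hp.2]
  have hy' : |p'.im * hh H1 H2 p'.re| ≤ hh H1 H2 p'.re := by
    rw [abs_mul, abs_of_pos (hh_pos h1 h12)]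
    nlinarith [hh_pos (x := p'.re) h1 h12, hp'.2]
  rw [← him] at hy'
  set y := p.im * hh H1 H2 p.re with hydef
  have hst := (hsm y).injective hre
  have hxx : p.re = p'.re := by
    rcases le_or_gt |y| H1 with hc | hc
    · unfold st at hst
      rw [tt_zero h12 hc] at hst
      simpa using hst
    · obtain ⟨n, hn⟩ := hh_key h12 hc hy
      obtain ⟨n', hn'⟩ := hh_key h12 hc hy'
      obtain ⟨k1, k2⟩ := st_key hn
      obtain ⟨k1', k2'⟩ := st_key hn'
      have ht1 := tt_le_one H1 H2 y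
      have hnn : n = n' := by
        by_contra hne
        have h3 : 1 ≤ |n - n'| := Int.one_le_abs (sub_ne_zero.2 hne)
        have h4 : (1 : ℝ) ≤ |(n : ℝ) - n'| := by
          have h5 : ((1 : ℤ) : ℝ) ≤ ((|n - n'| : ℤ) : ℝ) := by exact_mod_cast h3
          simpa using h5
        rw [hst] at k2
        rw [abs_le] at k2 k2'
        rcases le_abs.1 h4 with h6 | h6
        · linarith [k2.1, k2.2, k2'.1, k2'.2]
        · linarith [k2.1, k2.2, k2'.1, k2'.2]
      subst hnn
      rw [hst, k1'] at k1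
      have h7 : (0 : ℝ) < 2 / (2 - tt H1 H2 y) := div_pos two_pos (by linarith)
      have h8 := mul_right_cancel₀ h7.ne' k1
      linarith
  apply Complex.ext hxx
  have h9 : p.im * hh H1 H2 p.re = p'.im * hh H1 H2 p.re := by
    rw [← hydef, him, hxx]
  exact mul_right_cancel₀ (hh_pos h1 h12).ne' h9

/-- PIECE DU. -/
theorem stDU : StDU := by
  intro d e c K I J hd he _ _
  have hW : W d e = 2 * (d + e) + 1 := rfl
  unfold UU colA colB
  refine region_disk (W d e) (d + e) _ _ _ _ (prof_cont _) (prof_cont _) ?_ ?_ ?_ ?_ ?_ I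
  · intro y
    apply prof_le
    intro s
    split_ifs
    · rw [abs_of_pos hd]; linarith
    · rw [abs_neg, abs_of_pos he]; linarith
  · intro y
    apply prof_le
    intro s
    split_ifs
    · rw [abs_neg, abs_of_pos hd]; linarith
    · rw [abs_of_pos he]; linarith
  · rw [hW]
    linarith
  · positivity
  · have : (0 : ℝ) ≤ J := Nat.cast_nonneg J
    nlinarith

end Pool.Agent.R906.SU
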