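import Pool.Agent.R906.SU.DU

/-!
# PIECE OV of `MP_ae4adf_co`: two copies of `A` with spikes in the same side of a copy of `B`
-/

open MeasureTheory Set Filter Topology

namespace Pool.Agent.R906.SU

open Pool.Agent.R612.SU

theorem q_of {t : ℝ} (h : |t| ≤ 1 / 2) : q t = 1 - 4 * |t| + 4 * |t| ^ 2 := by
  unfold q
  rw [max_eq_right (by linarith)]
  ring

theorem tA_open {d e : ℝ} (hd : 0 < d) {c : ℕ} {τ : ℝ} (hτ : τ = 1 ∨ τ = -1) {z : ℂ}
    (h1 : |z.im| < 1 / 2) (h2 : 4 * d * |z.im| < W d e + d - τ * z.re) (h3 : 0 < τ * z.re) :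
    z ∈ interior (tA d e c) := by
  rw [mem_interior]
  refine ⟨{z : ℂ | |z.im| < 1 / 2 ∧ 4 * d * |z.im| < W d e + d - τ * z.re ∧ 0 < τ * z.re},
    ?_, ?_, ⟨h1, h2, h3⟩⟩
  · rintro w ⟨k1, k2, k3⟩
    have hc : (0 : ℝ) ≤ c := Nat.cast_nonneg c
    refine ⟨by linarith, ?_⟩
    have habs : |w.re| = τ * w.re := by
      rcases hτ with rfl | rfl
      · rw [one_mul] at k3 ⊢
        exact abs_of_pos k3
      · rw [neg_one_mul] at k3 ⊢
        exact abs_of_neg (by linarith)
    have hp : prof (fa d e) w.im = d * (1 - 4 * |w.im| + 4 * |w.im| ^ 2) := by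
      rw [prof_eq (fa d e) (s := 0) (by simpa using k1.le)]
      simp only [Int.cast_zero, sub_zero]
      rw [q_of k1.le]
      simp [fa]
    rw [habs, hp]
    have : 0 ≤ d * |w.im| ^ 2 := by positivity
    linarith
  · refine IsOpen.inter (isOpen_lt (continuous_abs.comp Complex.continuous_im)
      continuous_const) (IsOpen.inter ?_ ?_)
    · exact isOpen_lt (continuous_const.mul (continuous_abs.comp Complex.continuous_im))
        (continuous_const.sub (continuous_const.mul Complex.continuous_re))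
    · exact isOpen_lt continuous_const (continuous_const.mul Complex.continuous_re)

theorem tB_open {d e : ℝ} {c K : ℕ} (hK : K ≤ c) {σ : ℝ} (hσ : σ = 1 ∨ σ = -1) {s : ℤ}
    (hs : |s| ≤ (K : ℤ)) {z : ℂ}
    (h1 : |z.im - s| < 1 / 2) (h2 : σ * z.re < W d e - d + 4 * d * |z.im - s| * (1 - |z.im - s|))
    (h3 : 0 < σ * z.re) :
    z ∈ interior (tB d e c K) := by
  rw [mem_interior]
  refine ⟨{z : ℂ | |z.im - s| < 1 / 2 ∧
    σ * z.re < W d e - d + 4 * d * |z.im - s| * (1 - |z.im - s|) ∧ 0 < σ * z.re},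
    ?_, ?_, ⟨h1, h2, h3⟩⟩
  · rintro w ⟨k1, k2, k3⟩
    have hsR : |(s : ℝ)| ≤ K := by exact_mod_cast hs
    have hKc : (K : ℝ) ≤ c := by exact_mod_cast hK
    constructor
    · have : w.im = (w.im - s) + s := by ring
      rw [this]
      refine (abs_add_le _ _).trans ?_
      linarith
    · have habs : |w.re| = σ * w.re := by
        rcases hσ with rfl | rfl
        · rw [one_mul] at k3 ⊢
          exact abs_of_pos k3
        · rw [neg_one_mul] at k3 ⊢
          exact abs_of_neg (by linarith)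
      have hp : prof (fb d e K) w.im = -d * (1 - 4 * |w.im - s| + 4 * |w.im - s| ^ 2) := by
        rw [prof_eq (fb d e K) (s := s) k1.le, q_of k1.le]
        simp [fb, hs]
      rw [habs, hp]
      nlinarith
  · refine IsOpen.inter (isOpen_lt (continuous_abs.comp (Complex.continuous_im.sub
      continuous_const)) continuous_const) (IsOpen.inter ?_ ?_)
    · have hc : Continuous fun z : ℂ => |z.im - s| :=
        continuous_abs.comp (Complex.continuous_im.sub continuous_const)
      exact isOpen_lt (continuous_const.mul Complex.continuous_re)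
        (continuous_const.add ((continuous_const.mul hc).mul (continuous_const.sub hc)))
    · exact isOpen_lt continuous_const (continuous_const.mul Complex.continuous_re)

theorem q_neg (t : ℝ) : q (-t) = q t := by
  unfold q
  rw [abs_neg]

theorem prof_fa_neg (d e y : ℝ) : prof (fa d e) (-y) = prof (fa d e) y := by
  have h1 := abs_sub_round y
  rw [prof_eq (fa d e) (s := round y) h1, prof_eq (fa d e) (s := -round y)
    (by push_cast; rw [show -y - -(round y : ℝ) = -(y - round y) by ring, abs_neg]; exact h1)]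
  push_cast
  rw [show -y - -(round y : ℝ) = -(y - round y) by ring, q_neg]
  unfold fa
  simp

theorem sq1 {x : ℝ} (h : x ^ 2 = 1) : x = 1 ∨ x = -1 := by
  have h2 : (x - 1) * (x + 1) = 0 := by nlinarith
  rcases mul_eq_zero.1 h2 with h3 | h3
  · left; linarith
  · right; linarith

/-- Two congruent cones, one inside the other, have the same axis. -/
theorem cone_axis {D a1 a2 b1 b2 : ℝ} (hD : 0 < D) (ha : a1 ^ 2 + a2 ^ 2 = 1)
    (hb : b1 ^ 2 + b2 ^ 2 = 1) (hab : a1 * b1 + a2 * b2 = 0)
    (h1 : D * |D * a2 + b2| ≤ D * a1 + b1) (h2 : D * |D * a2 - b2| ≤ D * a1 - b1) :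
    a1 = 1 ∧ a2 = 0 ∧ b1 = 0 ∧ (b2 = 1 ∨ b2 = -1) := by
  have hk1 : b1 = -(a1 * b2 - a2 * b1) * a2 := by
    have : -(a1 * b2 - a2 * b1) * a2 = b1 * (a1 ^ 2 + a2 ^ 2) - a1 * (a1 * b1 + a2 * b2) := by ring
    rw [this, ha, hab]
    ring
  have hk2 : b2 = (a1 * b2 - a2 * b1) * a1 := by
    have : (a1 * b2 - a2 * b1) * a1 = b2 * (a1 ^ 2 + a2 ^ 2) - a2 * (a1 * b1 + a2 * b2) := by ring
    rw [this, ha, hab]
    ring
  have hk3 : (a1 * b2 - a2 * b1) ^ 2 = 1 := by
    have : (a1 * b2 - a2 * b1) ^ 2 =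
      (a1 ^ 2 + a2 ^ 2) * (b1 ^ 2 + b2 ^ 2) - (a1 * b1 + a2 * b2) ^ 2 := by ring
    rw [this, ha, hb, hab]
    norm_num
  set κ := a1 * b2 - a2 * b1 with hκ
  have h1a := le_abs_self (D * a2 + b2)
  have h1b := neg_abs_le (D * a2 + b2)
  have h2a := le_abs_self (D * a2 - b2)
  have h2b := neg_abs_le (D * a2 - b2)
  have hD2 : 0 < 1 + D ^ 2 := by positivity
  have ha2 : a2 = 0 := by
    rcases (sq1 hk3) with hk | hk
    · rw [hk] at hk1 hk2
      have e1 : (1 + D ^ 2) * a2 ≤ 0 := by nlinarith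
      have e2 : 0 ≤ (1 + D ^ 2) * a2 := by nlinarith
      have e3 : (1 + D ^ 2) * a2 = 0 := le_antisymm e1 e2
      exact (mul_eq_zero.1 e3).resolve_left hD2.ne'
    · rw [hk] at hk1 hk2
      have e1 : (1 + D ^ 2) * a2 ≤ 0 := by nlinarith
      have e2 : 0 ≤ (1 + D ^ 2) * a2 := by nlinarith
      have e3 : (1 + D ^ 2) * a2 = 0 := le_antisymm e1 e2
      exact (mul_eq_zero.1 e3).resolve_left hD2.ne'
  have hb1 : b1 = 0 := by rw [hk1, ha2]; ring
  have ha1 : 0 ≤ a1 := by
    rw [hb1] at h1
    have := abs_nonneg (D * a2 + b2)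
    have h3 : 0 ≤ D * a1 := by nlinarith
    exact nonneg_of_mul_nonneg_right h3 hD
  rw [ha2] at ha
  have ha1' : a1 = 1 := by nlinarith
  refine ⟨ha1', ha2, hb1, ?_⟩
  rw [hk2, ha1', mul_one]
  exact (sq1 hk3)

/-- The position of a copy of `A` with a spike in a notch of `B`. -/
theorem position {d e : ℝ} {c K : ℕ} (hd : 0 < d) (he : 0 < e) (hK : K ≤ c)
    (h : ℂ ≃ᵢ ℂ) {σ τ : ℝ} (hσ : σ = 1 ∨ σ = -1) (hτ : τ = 1 ∨ τ = -1) {s : ℤ}
    (hs : |s| ≤ (K : ℤ)) (hu : h ⟨τ * (W d e + d), 0⟩ = ⟨σ * (W d e - d), s⟩)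
    (hdis : interior (h '' tA d e c) ∩ interior (tB d e c K) = ∅) :
    h '' tA d e c = (fun z : ℂ => z + ⟨2 * σ * W d e, s⟩) '' tA d e c := by
  have hW : W d e = 2 * (d + e) + 1 := rfl
  have hσ2 : σ * σ = 1 := by rcases hσ with rfl | rfl <;> norm_num
  have hτ2 : τ * τ = 1 := by rcases hτ with rfl | rfl <;> norm_num
  set L := h.toRealAffineIsometryEquiv.linearIsometryEquiv with hL
  have hlin : ∀ z u : ℂ, h z = L (z - u) + h u := by
    intro z u
    have h1 := h.toRealAffineIsometryEquiv.map_vadd u (z - u)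
    rw [IsometryEquiv.coeFn_toRealAffineIsometryEquiv] at h1
    simpa using h1
  set p := L 1 with hp
  set r := L Complex.I with hr
  have hLz : ∀ z : ℂ, L z = (z.re : ℂ) * p + (z.im : ℂ) * r := by
    intro z
    have h1 : z = z.re • (1 : ℂ) + z.im • Complex.I := by
      simp
    conv_lhs => rw [h1]
    rw [map_add, map_smul, map_smul, Complex.real_smul, Complex.real_smul]
  have hpn : p.re ^ 2 + p.im ^ 2 = 1 := by
    have h1 : ‖p‖ = 1 := by rw [hp, L.norm_map]; simp
    have h2 := Complex.sq_norm p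
    rw [h1, Complex.normSq_apply] at h2
    nlinarith
  have hrn : r.re ^ 2 + r.im ^ 2 = 1 := by
    have h1 : ‖r‖ = 1 := by rw [hr, L.norm_map]; simp
    have h2 := Complex.sq_norm r
    rw [h1, Complex.normSq_apply] at h2
    nlinarith
  have hpr : p.re * r.re + p.im * r.im = 0 := by
    have h1 : ‖L (1 + Complex.I)‖ ^ 2 = 2 := by
      rw [L.norm_map, Complex.sq_norm, Complex.normSq_apply]
      norm_num
    rw [map_add, Complex.sq_norm, Complex.normSq_apply] at h1
    simp only [Complex.add_re, Complex.add_im] at h1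
    rw [← hp, ← hr] at h1
    nlinarith
  -- the cone of `A` does not meet the cone of `B`
  have key : ∀ R Y : ℝ, 4 * d * |Y| < R →
      4 * d * |-τ * R * p.im + Y * r.im| ≤ σ * (-τ * R * p.re + Y * r.re) := by
    intro R Y hRY
    by_contra hcon
    rw [not_le] at hcon
    set ρ := σ * (-τ * R * p.re + Y * r.re) with hρ
    set η := -τ * R * p.im + Y * r.im with hη
    have hR : 0 < R := lt_of_le_of_lt (by positivity) hRY
    have hev : ∀ᶠ t in 𝓝[>] (0 : ℝ), 0 < t ∧ t * |Y| < 1 / 2 ∧ t * R < W d e + d ∧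
        t * |η| < 1 / 2 ∧ t * |ρ| < W d e - d ∧ ρ < 4 * d * |η| * (1 - t * |η|) := by
      refine Filter.Eventually.and self_mem_nhdsWithin ?_
      refine Filter.Eventually.filter_mono nhdsWithin_le_nhds ?_
      refine Filter.Eventually.and ?_ (Filter.Eventually.and ?_ (Filter.Eventually.and ?_
        (Filter.Eventually.and ?_ ?_)))
      · exact (by fun_prop : Continuous fun t : ℝ => t * |Y|).continuousAt.eventually_lt
          continuousAt_const (by norm_num)
      · exact (by fun_prop : Continuous fun t : ℝ => t * R).continuousAt.eventually_lt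
          continuousAt_const (by rw [hW]; linarith)
      · exact (by fun_prop : Continuous fun t : ℝ => t * |η|).continuousAt.eventually_lt
          continuousAt_const (by norm_num)
      · exact (by fun_prop : Continuous fun t : ℝ => t * |ρ|).continuousAt.eventually_lt
          continuousAt_const (by rw [hW]; linarith)
      · exact continuousAt_const.eventually_lt
          (by fun_prop : Continuous fun t : ℝ => 4 * d * |η| * (1 - t * |η|)).continuousAt
          (by simpa using hcon)
    obtain ⟨t, ht0, ht1, ht2, ht3, ht4, ht5⟩ := hev.exists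
    set w : ℂ := ⟨τ * (W d e + d) - t * (τ * R), t * Y⟩ with hw
    have hwA : w ∈ interior (tA d e c) := by
      have habs : |t * Y| = t * |Y| := by rw [abs_mul, abs_of_pos ht0]
      have hre : τ * w.re = (W d e + d) - t * R := by
        change τ * (τ * (W d e + d) - t * (τ * R)) = _
        have : τ * (τ * (W d e + d) - t * (τ * R)) = (τ * τ) * (W d e + d - t * R) := by ring
        rw [this, hτ2]
        ring
      refine tA_open hd hτ ?_ ?_ ?_
      · change |t * Y| < 1 / 2
        rw [habs]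
        exact ht1
      · rw [hre]
        change 4 * d * |t * Y| < _
        rw [habs]
        nlinarith
      · rw [hre]
        linarith
    have hhw : h w = ⟨σ * (W d e - d) + t * (σ * ρ), s + t * η⟩ := by
      rw [hlin w ⟨τ * (W d e + d), 0⟩, hu]
      have e1 : w - ⟨τ * (W d e + d), 0⟩ = ⟨-t * (τ * R), t * Y⟩ := by
        rw [hw]
        apply Complex.ext
        · simp
        · simp
      rw [e1, hLz]
      apply Complex.ext
      · simp only [Complex.add_re, Complex.mul_re, Complex.ofReal_re, Complex.ofReal_im, zero_mul,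
          sub_zero]
        rw [hρ]
        have : σ * (σ * (-τ * R * p.re + Y * r.re)) = (σ * σ) * (-τ * R * p.re + Y * r.re) := by
          ring
        rw [this, hσ2]
        ring
      · simp only [Complex.add_im, Complex.mul_im, Complex.ofReal_re, Complex.ofReal_im, zero_mul,
          add_zero]
        rw [hη]
        ring
    have hwB : h w ∈ interior (tB d e c K) := by
      have hre : σ * (h w).re = W d e - d + t * ρ := by
        rw [hhw]
        change σ * (σ * (W d e - d) + t * (σ * ρ)) = _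
        have : σ * (σ * (W d e - d) + t * (σ * ρ)) = (σ * σ) * (W d e - d + t * ρ) := by ring
        rw [this, hσ2]
        ring
      have him : (h w).im - s = t * η := by
        rw [hhw]
        change (s : ℝ) + t * η - s = _
        ring
      have habs : |t * η| = t * |η| := by rw [abs_mul, abs_of_pos ht0]
      refine tB_open hK hσ hs ?_ ?_ ?_
      · rw [him, habs]
        exact ht3
      · rw [hre, him, habs]
        have := mul_lt_mul_of_pos_left ht5 ht0
        nlinarith
      · rw [hre]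
        have h1 : -(t * |ρ|) ≤ t * ρ := by
          have := neg_abs_le ρ
          nlinarith
        linarith
    have hmem : h w ∈ interior (h '' tA d e c) ∩ interior (tB d e c K) := by
      refine ⟨?_, hwB⟩
      have : interior (h '' tA d e c) = h '' interior (tA d e c) :=
        (h.toHomeomorph.image_interior (tA d e c)).symm
      rw [this]
      exact ⟨w, hwA, rfl⟩
    rw [hdis] at hmem
    exact hmem
  -- limits: the two extreme rays
  have key' : ∀ Y : ℝ, |Y| = 1 →
      4 * d * |-τ * (4 * d) * p.im + Y * r.im| ≤ σ * (-τ * (4 * d) * p.re + Y * r.re) := by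
    intro Y hY
    have hc1 : Tendsto (fun R : ℝ => 4 * d * |-τ * R * p.im + Y * r.im|) (𝓝[>] (4 * d))
        (𝓝 (4 * d * |-τ * (4 * d) * p.im + Y * r.im|)) :=
      ((by fun_prop : Continuous fun R : ℝ =>
        4 * d * |-τ * R * p.im + Y * r.im|).tendsto _).mono_left nhdsWithin_le_nhds
    have hc2 : Tendsto (fun R : ℝ => σ * (-τ * R * p.re + Y * r.re)) (𝓝[>] (4 * d))
        (𝓝 (σ * (-τ * (4 * d) * p.re + Y * r.re))) :=
      ((by fun_prop : Continuous fun R : ℝ =>
        σ * (-τ * R * p.re + Y * r.re)).tendsto _).mono_left nhdsWithin_le_nhds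
    refine le_of_tendsto_of_tendsto hc1 hc2 ?_
    filter_upwards [self_mem_nhdsWithin] with R hR
    apply key
    rw [hY, mul_one]
    exact hR
  have k1 := key' 1 (by norm_num)
  have k2 := key' (-1) (by norm_num)
  have hax := cone_axis (D := 4 * d) (a1 := σ * (-τ * p.re)) (a2 := -τ * p.im) (b1 := σ * r.re)
    (b2 := r.im) (by linarith)
    (by
      have : (σ * (-τ * p.re)) ^ 2 + (-τ * p.im) ^ 2 =
        (σ * σ) * (τ * τ) * p.re ^ 2 + (τ * τ) * p.im ^ 2 := by ring
      rw [this, hσ2, hτ2]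
      linarith)
    (by
      have : (σ * r.re) ^ 2 + r.im ^ 2 = (σ * σ) * r.re ^ 2 + r.im ^ 2 := by ring
      rw [this, hσ2]
      linarith)
    (by
      have : σ * (-τ * p.re) * (σ * r.re) + -τ * p.im * r.im =
        -τ * ((σ * σ) * (p.re * r.re) + p.im * r.im) := by ring
      rw [this, hσ2, one_mul, hpr]
      ring)
    (by
      have e1 : 4 * d * (-τ * p.im) + r.im = -τ * (4 * d) * p.im + 1 * r.im := by ring
      have e2 : 4 * d * (σ * (-τ * p.re)) + σ * r.re = σ * (-τ * (4 * d) * p.re + 1 * r.re) := by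
        ring
      rw [e1, e2]
      exact k1)
    (by
      have e1 : 4 * d * (-τ * p.im) - r.im = -τ * (4 * d) * p.im + -1 * r.im := by ring
      have e2 : 4 * d * (σ * (-τ * p.re)) - σ * r.re = σ * (-τ * (4 * d) * p.re + -1 * r.re) := by
        ring
      rw [e1, e2]
      exact k2)
  obtain ⟨hx1, hx2, hx3, hx4⟩ := hax
  have hpre : p.re = -(σ * τ) := by
    have : σ * τ * (σ * (-τ * p.re)) = -((σ * σ) * (τ * τ) * p.re) := by ring
    rw [hx1, hσ2, hτ2] at this
    linarith
  have hpim : p.im = 0 := by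
    have : τ * (-τ * p.im) = -((τ * τ) * p.im) := by ring
    rw [hx2, hτ2] at this
    linarith
  have hrre : r.re = 0 := by
    have : σ * (σ * r.re) = (σ * σ) * r.re := by ring
    rw [hx3, hσ2] at this
    linarith
  have hform : ∀ z : ℂ, h z = ⟨-(σ * τ) * z.re + 2 * σ * W d e, r.im * z.im + s⟩ := by
    intro z
    rw [hlin z ⟨τ * (W d e + d), 0⟩, hu, hLz]
    apply Complex.ext
    · simp only [Complex.add_re, Complex.mul_re, Complex.ofReal_re, Complex.ofReal_im, zero_mul,
        sub_zero, Complex.sub_re, Complex.sub_im]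
      rw [hpre, hrre]
      have : (z.re - τ * (W d e + d)) * -(σ * τ) =
        -(σ * τ) * z.re + (τ * τ) * σ * (W d e + d) := by ring
      rw [this, hτ2]
      ring
    · simp only [Complex.add_im, Complex.mul_im, Complex.ofReal_re, Complex.ofReal_im, zero_mul,
        add_zero, Complex.sub_re, Complex.sub_im, sub_zero]
      rw [hpim]
      ring
  have hκ : r.im * r.im = 1 := by rcases hx4 with h4 | h4 <;> rw [h4] <;> norm_num
  have hστ : (σ * τ) * (σ * τ) = 1 := by
    have : (σ * τ) * (σ * τ) = (σ * σ) * (τ * τ) := by ring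
    rw [this, hσ2, hτ2]
    norm_num
  have hsym : ∀ z ∈ tA d e c, (⟨-(σ * τ) * z.re, r.im * z.im⟩ : ℂ) ∈ tA d e c := by
    intro z hz
    have e1 : |r.im * z.im| = |z.im| := by
      rw [abs_mul]
      rcases hx4 with h4 | h4 <;> rw [h4] <;> simp
    have e2 : |-(σ * τ) * z.re| = |z.re| := by
      rw [abs_mul]
      rcases hσ with rfl | rfl <;> rcases hτ with rfl | rfl <;> simp
    have e3 : prof (fa d e) (r.im * z.im) = prof (fa d e) z.im := by
      rcases hx4 with h4 | h4
      · rw [h4, one_mul]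
      · rw [h4, neg_one_mul, prof_fa_neg]
    constructor
    · change |r.im * z.im| ≤ _
      rw [e1]
      exact hz.1
    · change |-(σ * τ) * z.re| ≤ W d e + prof (fa d e) (r.im * z.im)
      rw [e2, e3]
      exact hz.2
  ext z
  constructor
  · rintro ⟨w, hw, rfl⟩
    refine ⟨_, hsym w hw, ?_⟩
    rw [hform]
    apply Complex.ext <;> simp
  · rintro ⟨w, hw, rfl⟩
    refine ⟨_, hsym w hw, ?_⟩
    rw [hform]
    apply Complex.ext
    · change -(σ * τ) * (-(σ * τ) * w.re) + 2 * σ * W d e = w.re + 2 * σ * W d e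
      have : -(σ * τ) * (-(σ * τ) * w.re) = (σ * τ) * (σ * τ) * w.re := by ring
      rw [this, hστ, one_mul]
    · change r.im * (r.im * w.im) + s = w.im + s
      rw [← mul_assoc, hκ, one_mul]

theorem tA_core {d e : ℝ} (hd : 0 < d) (he : 0 < e) {c : ℕ} {y : ℝ} (hy : |y| < c + 1 / 2) :
    (⟨0, y⟩ : ℂ) ∈ interior (tA d e c) := by
  have hW : W d e = 2 * (d + e) + 1 := rfl
  rw [mem_interior]
  refine ⟨{z : ℂ | |z.im| < c + 1 / 2 ∧ |z.re| < 1}, ?_, ?_, hy, by simp⟩
  · rintro z ⟨h1, h2⟩
    refine ⟨h1.le, ?_⟩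
    have h3 : |prof (fa d e) z.im| ≤ d + e := by
      apply prof_le
      intro s
      unfold fa
      split_ifs
      · rw [abs_of_pos hd]; linarith
      · rw [abs_neg, abs_of_pos he]; linarith
    rw [abs_le] at h3
    linarith [h3.1]
  · exact IsOpen.inter (isOpen_lt (continuous_abs.comp Complex.continuous_im) continuous_const)
      (isOpen_lt (continuous_abs.comp Complex.continuous_re) continuous_const)

theorem tA_top {d e : ℝ} (hd : 0 < d) (he : 0 < e) {c : ℕ} {y : ℝ} (hy : |y| ≤ c + 1 / 2) :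
    (⟨0, y⟩ : ℂ) ∈ tA d e c := by
  have hW : W d e = 2 * (d + e) + 1 := rfl
  refine ⟨hy, ?_⟩
  have h3 : |prof (fa d e) y| ≤ d + e := by
    apply prof_le
    intro s
    unfold fa
    split_ifs
    · rw [abs_of_pos hd]; linarith
    · rw [abs_neg, abs_of_pos he]; linarith
  rw [abs_le] at h3
  change |(0 : ℝ)| ≤ W d e + prof (fa d e) y
  rw [abs_zero]
  linarith [h3.1]

/-- PIECE OV. -/
theorem stOV : StOV := by
  intro d e c K hG hKc g g1 g2 x s1 s2 u1 u2 hx hs1 hs2 hu1 hu2 hg1 hg2 hd1 hd2 hor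
  have hd := hG.hd
  have he := hG.he
  have hW : W d e = 2 * (d + e) + 1 := rfl
  have hK : K ≤ c := by omega
  -- signs
  obtain ⟨σ, hσ, hxσ⟩ : ∃ σ : ℝ, (σ = 1 ∨ σ = -1) ∧ x = σ * (W d e - d) := by
    rcases abs_choice x with h | h
    · exact ⟨1, Or.inl rfl, by rw [one_mul, ← hx, h]⟩
    · exact ⟨-1, Or.inr rfl, by rw [← hx, h]; ring⟩
  have hsign : ∀ u ∈ aA d e, ∃ τ : ℝ, (τ = 1 ∨ τ = -1) ∧ u = ⟨τ * (W d e + d), 0⟩ := by
    rintro u ⟨h1, h2⟩
    rcases abs_choice u.re with h | h
    · exact ⟨1, Or.inl rfl, Complex.ext (by rw [← h1, h]; simp) h2⟩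
    · exact ⟨-1, Or.inr rfl, Complex.ext (by rw [← h1, h]; simp) h2⟩
  have hpos : ∀ (g' : ℂ ≃ᵢ ℂ) (s : ℤ) (u : ℂ), |s| ≤ (K : ℤ) → u ∈ aA d e → g' u = g ⟨x, s⟩ →
      interior (g' '' tA d e c) ∩ interior (g '' tB d e c K) = ∅ →
      g' '' tA d e c = g '' ((fun z : ℂ => z + ⟨2 * σ * W d e, s⟩) '' tA d e c) := by
    intro g' s u hs hu hgu hdis
    obtain ⟨τ, hτ, hτu⟩ := hsign u hu
    have hcomp : ∀ T : Set ℂ, (g'.trans g.symm) '' T = g.symm '' (g' '' T) := by
      intro T
      rw [Set.image_image]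
      rfl
    have hint : ∀ T : Set ℂ, interior (g.symm '' T) = g.symm '' interior T := fun T =>
      (g.symm.toHomeomorph.image_interior T).symm
    have hdis' : interior ((g'.trans g.symm) '' tA d e c) ∩ interior (tB d e c K) = ∅ := by
      have e1 : tB d e c K = g.symm '' (g '' tB d e c K) := by
        rw [Set.image_image]
        simp
      rw [hcomp, e1, hint, hint, ← Set.image_inter g.symm.injective, hdis, Set.image_empty]
    have hup : (g'.trans g.symm) ⟨τ * (W d e + d), 0⟩ = ⟨σ * (W d e - d), s⟩ := by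
      rw [← hτu, ← hxσ]
      change g.symm (g' u) = _
      rw [hgu]
      simp
    have hfin := position hd he hK (g'.trans g.symm) hσ hτ hs hup hdis'
    rw [← hfin, hcomp, Set.image_image]
    simp
  have hp1 := hpos g1 s1 u1 hs1 hu1 hg1 hd1
  have hp2 := hpos g2 s2 u2 hs2 hu2 hg2 hd2
  have hs1R : |(s1 : ℝ)| ≤ K := by exact_mod_cast hs1
  have hs2R : |(s2 : ℝ)| ≤ K := by exact_mod_cast hs2
  have hKcR : (K : ℝ) ≤ c := by exact_mod_cast hK
  have hA1 := abs_le.1 hs1R
  have hA2 := abs_le.1 hs2R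
  rcases hor with heq | hemp
  · -- equal sets
    rw [hp1, hp2] at heq
    have heq' := (Set.image_injective.2 g.injective) heq
    have hmem : ∀ y : ℝ, |y| ≤ c + 1 / 2 → |y + (s1 - s2)| ≤ c + 1 / 2 := by
      intro y hy
      have h1 : (⟨0, y⟩ : ℂ) + ⟨2 * σ * W d e, s1⟩ ∈
          (fun z : ℂ => z + ⟨2 * σ * W d e, s1⟩) '' tA d e c := ⟨_, tA_top hd he hy, rfl⟩
      rw [heq'] at h1
      obtain ⟨w, hw, hwe⟩ := h1
      have h2 := congrArg Complex.im hwe
      simp only [Complex.add_im] at h2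
      have h3 := hw.1
      have h4 : y + ((s1 : ℝ) - s2) = w.im := by linarith
      rw [h4]
      exact h3
    have hc : (0 : ℝ) ≤ c := Nat.cast_nonneg c
    have m1 := hmem (c + 1 / 2) (by rw [abs_of_nonneg (by linarith)])
    have m2 := hmem (-(c + 1 / 2)) (by rw [abs_neg, abs_of_nonneg (by linarith)])
    have n1 := (abs_le.1 m1).2
    have n2 := (abs_le.1 m2).1
    have : (s1 : ℝ) = s2 := by linarith
    exact_mod_cast this
  · exfalso
    rw [hp1, hp2] at hemp
    have hint : ∀ T : Set ℂ, interior (g '' T) = g '' interior T := fun T =>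
      (g.toHomeomorph.image_interior T).symm
    have hint2 : ∀ (v : ℂ) (T : Set ℂ), interior ((fun z : ℂ => z + v) '' T) =
        (fun z : ℂ => z + v) '' interior T := fun v T =>
      ((Homeomorph.addRight v).image_interior T).symm
    rw [hint, hint, hint2, hint2] at hemp
    have hmem : g (⟨2 * σ * W d e, (s1 + s2) / 2⟩ : ℂ) ∈
        g '' ((fun z : ℂ => z + ⟨2 * σ * W d e, s1⟩) '' interior (tA d e c)) ∩
        g '' ((fun z : ℂ => z + ⟨2 * σ * W d e, s2⟩) '' interior (tA d e c)) := by
      constructor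
      · refine ⟨_, ⟨⟨0, (s2 - s1) / 2⟩, tA_core hd he ?_, rfl⟩, ?_⟩
        · rw [abs_lt]
          constructor <;> linarith [hA1.1, hA1.2, hA2.1, hA2.2]
        · congr 1
          apply Complex.ext
          · simp
          · simp only [Complex.add_im]
            ring
      · refine ⟨_, ⟨⟨0, (s1 - s2) / 2⟩, tA_core hd he ?_, rfl⟩, ?_⟩
        · rw [abs_lt]
          constructor <;> linarith [hA1.1, hA1.2, hA2.1, hA2.2]
        · congr 1
          apply Complex.ext
          · simp
          · simp only [Complex.add_im]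
            ring
    rw [hemp] at hmem
    exact hmem

end Pool.Agent.R906.SU
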